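import Mathlib
import Pool.Agent.TH888.G.Uniq1
import Pool.Agent.TH888.G.QBD
import Pool.Agent.H374R2.W.Glue

/-!
One given base, a second base with a large `p`-part, a large exponent `k` of the third base.
Part 1: for each divisor `q` of `k` and each residue class of the exponent of the given base, a bound
for the number of pairs of values.
-/

set_option autoImplicit false

namespace Pool.Agent.K1H94.P

open Pool.Agent.H374R2.V (HH)
open Pool.Agent.H374R2.W (SolP SolR)

/-- at most one solution in each pair of residue classes modulo `p ^ 2` -/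
theorem big1 {κ : ℝ} {q p : ℕ} {c : ℤ} (hκ0 : 0 < κ) (hκ1 : 2 * κ ≤ 1) (hq : IsPrimePow q)
    (hqκ : 100 / κ ^ 2 ≤ q) (hp : p.Prime) :
    {w : ℕ × ℕ | ∃ T : ℤ, SolP (2 * κ) q p c w.1 w.2 T ∧
      50 * (3 / κ + 1) * Real.log (10 ^ 8 * (q : ℝ) ^ 9) ≤ Real.log (HH q c w.1 w.2)}.Finite ∧
    {w : ℕ × ℕ | ∃ T : ℤ, SolP (2 * κ) q p c w.1 w.2 T ∧
      50 * (3 / κ + 1) * Real.log (10 ^ 8 * (q : ℝ) ^ 9) ≤
        Real.log (HH q c w.1 w.2)}.ncard ≤ p ^ 4 := by
  obtain ⟨D, hD⟩ : ∃ D : Set (ℕ × ℕ), D = {w : ℕ × ℕ | ∃ T : ℤ, SolP (2 * κ) q p c w.1 w.2 T ∧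
      50 * (3 / κ + 1) * Real.log (10 ^ 8 * (q : ℝ) ^ 9) ≤ Real.log (HH q c w.1 w.2)} := ⟨_, rfl⟩
  rw [← hD]
  have hinj : Set.InjOn (fun w : ℕ × ℕ => (w.1 % p ^ 2, w.2 % p ^ 2)) D := by
    rw [hD]
    rintro ⟨U, V⟩ ⟨T, hS, hl⟩ ⟨U', V'⟩ ⟨T', hS', hl'⟩ h
    simp only [Prod.mk.injEq] at h
    obtain ⟨h1, h2⟩ := Pool.Agent.TH888.G.unique_p' hκ0 hκ1 hq hqκ hp hS hS' hl hl' h.1 h.2
    simp only at h1 h2
    rw [h1, h2]
  have hpp : 0 < p ^ 2 := pow_pos hp.pos 2
  have hmaps : Set.MapsTo (fun w : ℕ × ℕ => (w.1 % p ^ 2, w.2 % p ^ 2)) D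
      ((Finset.range (p ^ 2) ×ˢ Finset.range (p ^ 2) : Finset (ℕ × ℕ)) : Set (ℕ × ℕ)) := by
    intro w _
    simp only [Finset.coe_product, Finset.coe_range, Set.mem_prod, Set.mem_Iio]
    exact ⟨Nat.mod_lt _ hpp, Nat.mod_lt _ hpp⟩
  refine ⟨Set.Finite.of_injOn hmaps hinj (Finset.finite_toSet _), ?_⟩
  calc D.ncard ≤ ((Finset.range (p ^ 2) ×ˢ Finset.range (p ^ 2) : Finset (ℕ × ℕ)) :
        Set (ℕ × ℕ)).ncard := Set.ncard_le_ncard_of_injOn _ hmaps hinj (Finset.finite_toSet _)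
    _ = p ^ 4 := by
      rw [Set.ncard_coe_finset, Finset.card_product, Finset.card_range]
      ring

/-- at most one solution close to the real root -/
theorem big2 {q : ℕ} {c : ℤ} (hq : IsPrimePow q) (hq4 : 400 ≤ q) :
    {w : ℕ × ℕ | ∃ T : ℤ, SolR (1 / 2) q c w.1 w.2 T}.Finite ∧
    {w : ℕ × ℕ | ∃ T : ℤ, SolR (1 / 2) q c w.1 w.2 T}.ncard ≤ 1 := by
  have h : {w : ℕ × ℕ | ∃ T : ℤ, SolR (1 / 2) q c w.1 w.2 T}.Subsingleton := by
    rintro ⟨U, V⟩ ⟨T, hS⟩ ⟨U', V'⟩ ⟨T', hS'⟩
    have h4 : (100 : ℝ) / (1 / 2) ^ 2 ≤ q := by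
      have : (400 : ℝ) ≤ q := by exact_mod_cast hq4
      norm_num
      linarith
    obtain ⟨h1, h2⟩ := Pool.Agent.H374R2.W.unique_r (by norm_num) (by norm_num) hq h4 hS hS'
    simp only at h1 h2
    rw [h1, h2]
  exact ⟨h.finite, (Set.ncard_le_one h.finite).2 fun a ha b hb => h ha hb⟩

/-- The pairs of values `(U ^ q, a ^ x)`, `x` in the class `i`, for which `U ^ q - s a ^ x` is up to
the sign `σ` a power of an integer `b` with a large `p`-part. -/
def E (κ : ℝ) (q i p a : ℕ) (s σ : ℤ) : Set (ℕ × ℕ) :=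
  {w | ∃ U x' b n e : ℕ, w = (U ^ q, a ^ (q * x' + i)) ∧ 0 < U ∧ 2 ≤ b ∧ 0 < n ∧
    Nat.Coprime U a ∧ Nat.Coprime U b ∧ Nat.Coprime a b ∧ p ^ e ∣ b ∧
    (b : ℝ) ^ κ ≤ (p : ℝ) ^ e ∧
    (U : ℤ) ^ q - s * (a : ℤ) ^ (q * x' + i) = σ * (b : ℤ) ^ n}

theorem E_card {κ : ℝ} {q i p a L : ℕ} {s σ : ℤ} (hκ0 : 0 < κ) (hκ1 : κ ≤ 1)
    (hq : IsPrimePow q) (hqκ : 1600 / κ ^ 2 ≤ q) (hp : p.Prime) (ha : 0 < a)
    (hs : s = 1 ∨ s = -1) (hσ : σ = 1 ∨ σ = -1) (hL : 50 * (3 / (κ / 4) + 1) ≤ (L : ℝ)) :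
    (E κ q i p a s σ).Finite ∧
      (E κ q i p a s σ).ncard ≤ ((10 ^ 8 * q ^ 9) ^ L + 1) ^ 2 + p ^ 4 + 1 := by
  have hq1 : (1 : ℝ) ≤ q := by exact_mod_cast hq.pos
  have hq400 : 400 ≤ q := by
    have h1 : (1600 : ℝ) ≤ 1600 / κ ^ 2 := by
      rw [le_div_iff₀ (by positivity)]
      have : κ ^ 2 ≤ 1 := pow_le_one₀ hκ0.le hκ1
      linarith
    have h2 : (1600 : ℝ) ≤ q := h1.trans hqκ
    have h3 : 1600 ≤ q := by exact_mod_cast h2
    omega
  have hκ4 : 100 / (κ / 4) ^ 2 ≤ (q : ℝ) := by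
    have h1 : 100 / (κ / 4) ^ 2 = 1600 / κ ^ 2 := by
      field_simp
      norm_num
    rw [h1]
    exact hqκ
  set c : ℤ := s * (a : ℤ) ^ i with hc
  set D₁ : Set (ℕ × ℕ) := {w : ℕ × ℕ | ∃ T : ℤ, SolP (2 * (κ / 4)) q p c w.1 w.2 T ∧
      50 * (3 / (κ / 4) + 1) * Real.log (10 ^ 8 * (q : ℝ) ^ 9) ≤
        Real.log (HH q c w.1 w.2)} with hD₁
  set D₂ : Set (ℕ × ℕ) := {w : ℕ × ℕ | ∃ T : ℤ, SolR (1 / 2) q c w.1 w.2 T} with hD₂
  set g : ℕ × ℕ → ℕ × ℕ := fun w => (w.1 ^ q, a ^ i * w.2 ^ q) with hg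
  set B := (10 ^ 8 * q ^ 9) ^ L with hB
  obtain ⟨f1, n1⟩ := big1 (c := c) (show 0 < κ / 4 by positivity) (by linarith) hq hκ4 hp
  obtain ⟨f2, n2⟩ := big2 (c := c) hq hq400
  have hlog : 0 ≤ Real.log (10 ^ 8 * (q : ℝ) ^ 9) := by
    apply Real.log_nonneg
    have : (1 : ℝ) ≤ (q : ℝ) ^ 9 := one_le_pow₀ hq1
    linarith
  have hcov : E κ q i p a s σ ⊆
      ((Finset.range (B + 1) ×ˢ Finset.range (B + 1) : Finset (ℕ × ℕ)) : Set (ℕ × ℕ)) ∪
        (g '' D₁ ∪ g '' D₂) := by
    rintro w ⟨U, x', b, n, e, hw, hU, hb, hn, hUa, hUb, hab, hpe, hbκ, heq⟩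
    have hVq : a ^ (q * x' + i) = a ^ i * (a ^ x') ^ q := by
      rw [pow_add, mul_comm, mul_comm q x', pow_mul]
    have habs : c.natAbs = a ^ i := by
      rw [hc, Int.natAbs_mul, Int.natAbs_pow, Int.natAbs_natCast]
      rcases hs with rfl | rfl <;> simp
    have hH : HH q c U (a ^ x') = max (U ^ q) (a ^ (q * x' + i)) := by
      rw [HH, habs, hVq]
    set H := HH q c U (a ^ x') with hHdef
    have hHpos : 0 < H := by
      rw [hH]
      exact lt_of_lt_of_le (pow_pos hU q) (le_max_left _ _)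
    by_cases hsmall : Real.log H ≤
        50 * (3 / (κ / 4) + 1) * Real.log (10 ^ 8 * (q : ℝ) ^ 9)
    · left
      have h1 : Real.log H ≤ Real.log (B : ℝ) := by
        refine hsmall.trans ?_
        have hBc : (B : ℝ) = (10 ^ 8 * (q : ℝ) ^ 9) ^ L := by
          rw [hB, Nat.cast_pow, Nat.cast_mul, Nat.cast_pow, Nat.cast_pow]
          norm_num
        rw [hBc, Real.log_pow]
        exact mul_le_mul_of_nonneg_right hL hlog
      have h2 : (H : ℝ) ≤ B := by
        have hBpos : (0 : ℝ) < B := by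
          rw [hB]
          push_cast
          positivity
        exact (Real.log_le_log_iff (by exact_mod_cast hHpos) hBpos).1 h1
      have h3 : H ≤ B := by exact_mod_cast h2
      rw [hH, max_le_iff] at h3
      rw [hw]
      simp only [Finset.coe_product, Finset.coe_range, Set.mem_prod, Set.mem_Iio]
      exact ⟨by omega, by omega⟩
    · rw [not_le] at hsmall
      right
      have hw2 : w = g (U, a ^ x') := by rw [hw, hg, hVq]
      have hb0 : 0 < b := by omega
      have hT0 : σ * (b : ℤ) ^ n ≠ 0 := by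
        have : (b : ℤ) ^ n ≠ 0 := pow_ne_zero _ (by exact_mod_cast hb0.ne')
        rcases hσ with rfl | rfl <;> simpa using this
      have heq' : (U : ℤ) ^ q - c * ((a ^ x' : ℕ) : ℤ) ^ q = σ * (b : ℤ) ^ n := by
        rw [← heq, hc]
        have : (a : ℤ) ^ (q * x' + i) = (a : ℤ) ^ i * ((a ^ x' : ℕ) : ℤ) ^ q := by
          exact_mod_cast hVq
        rw [this]
        ring
      have hc0 : c ≠ 0 := by
        have h1 : c.natAbs ≠ 0 := by
          rw [habs]
          exact (pow_pos ha i).ne'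
        exact Int.natAbs_ne_zero.1 h1
      have hUV : Nat.Coprime U (a ^ x') := Nat.Coprime.pow_right _ hUa
      have hbR : (1 : ℝ) < b := by exact_mod_cast (by omega : 1 < b)
      have hlb : 0 < Real.log (b : ℝ) := Real.log_pos hbR
      have hpR : (1 : ℝ) < p := by exact_mod_cast hp.one_lt
      have hlogκ : κ * Real.log b ≤ e * Real.log p := by
        have h1 := Real.log_le_log (by positivity) hbκ
        rwa [Real.log_rpow (by positivity), Real.log_pow] at h1
      have he : 0 < e := by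
        rcases Nat.eq_zero_or_pos e with h0 | h0
        · exfalso
          rw [h0] at hlogκ
          simp only [Nat.cast_zero, zero_mul] at hlogκ
          have := mul_pos hκ0 hlb
          linarith
        · exact h0
      have hpb : p ∣ b := (dvd_pow_self p he.ne').trans hpe
      have hpU : ¬ p ∣ U := fun h => hp.not_dvd_one (hUb ▸ Nat.dvd_gcd h hpb)
      have hpa : ¬ p ∣ a := fun h => hp.not_dvd_one (hab ▸ Nat.dvd_gcd h hpb)
      have hpV : ¬ p ∣ a ^ x' := fun h => hpa (hp.dvd_of_dvd_pow h)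
      have hlogT : Real.log |((σ * (b : ℤ) ^ n : ℤ) : ℝ)| = n * Real.log b := by
        rw [← Real.log_pow]
        congr 1
        push_cast
        rw [abs_mul, abs_of_pos (show (0 : ℝ) < (b : ℝ) ^ n by positivity)]
        rcases hσ with rfl | rfl <;> simp
      by_cases hcase : (1 / 2 : ℝ) * Real.log H ≤ n * Real.log b
      · left
        refine ⟨(U, a ^ x'), ⟨σ * (b : ℤ) ^ n, ⟨hU, pow_pos ha x', hT0, hc0, heq', hUV, hpU,
          hpV, ⟨e * n, ?_, ?_⟩, ?_⟩, ?_⟩, hw2.symm⟩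
        · have h1 : (p : ℤ) ^ (e * n) ∣ (b : ℤ) ^ n := by
            rw [pow_mul]
            exact pow_dvd_pow_of_dvd (by exact_mod_cast hpe) n
          exact h1.mul_left _
        · push_cast
          have h1 := mul_le_mul_of_nonneg_left hlogκ (Nat.cast_nonneg (α := ℝ) n)
          have h2 := mul_le_mul_of_nonneg_left hcase hκ0.le
          nlinarith
        · refine le_trans ?_ hsmall.le
          refine mul_le_mul_of_nonneg_right ?_ hlog
          have h1 : 3 / (2 * (κ / 4)) ≤ 3 / (κ / 4) :=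
            div_le_div_of_nonneg_left (by norm_num) (by positivity) (by linarith)
          linarith
        · exact hsmall.le
      · right
        rw [not_le] at hcase
        have hs1 : s = 1 := by
          rcases hs with h | h
          · exact h
          · exfalso
            have h1 : (U : ℤ) ^ q + (a : ℤ) ^ (q * x' + i) = σ * (b : ℤ) ^ n := by
              rw [← heq, h]
              ring
            have h2 : H ≤ b ^ n := by
              rw [hH]
              have hUq : (0 : ℤ) < (U : ℤ) ^ q := by positivity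
              have haq : (0 : ℤ) < (a : ℤ) ^ (q * x' + i) := by positivity
              have hbn : (0 : ℤ) < (b : ℤ) ^ n := by positivity
              have hσ1 : σ = 1 := by
                rcases hσ with h3 | h3
                · exact h3
                · exfalso
                  rw [h3] at h1
                  linarith
              rw [hσ1, one_mul] at h1
              refine max_le ?_ ?_
              · have : (U : ℤ) ^ q ≤ (b : ℤ) ^ n := by linarith
                exact_mod_cast this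
              · have : (a : ℤ) ^ (q * x' + i) ≤ (b : ℤ) ^ n := by linarith
                exact_mod_cast this
            have h3 : Real.log H ≤ n * Real.log b := by
              rw [← Real.log_pow]
              apply Real.log_le_log (by exact_mod_cast hHpos)
              exact_mod_cast h2
            have h4 : 0 ≤ Real.log (H : ℝ) := Real.log_natCast_nonneg _
            linarith
        refine ⟨(U, a ^ x'), ⟨σ * (b : ℤ) ^ n, ⟨hU, pow_pos ha x', hT0, ?_, heq', hUV, ?_, ?_⟩⟩,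
          hw2.symm⟩
        · rw [hc, hs1, one_mul]
          positivity
        · rw [hlogT]
          linarith
        · refine le_trans ?_ hsmall.le
          refine mul_le_mul_of_nonneg_right ?_ hlog
          have h1 : (3 : ℝ) / (1 / 2) ≤ 3 / (κ / 4) :=
            div_le_div_of_nonneg_left (by norm_num) (by positivity) (by linarith)
          linarith
  have hfin : (((Finset.range (B + 1) ×ˢ Finset.range (B + 1) : Finset (ℕ × ℕ)) : Set (ℕ × ℕ)) ∪
        (g '' D₁ ∪ g '' D₂)).Finite :=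
    (Finset.finite_toSet _).union ((f1.image g).union (f2.image g))
  refine ⟨hfin.subset hcov, ?_⟩
  calc (E κ q i p a s σ).ncard ≤ _ := Set.ncard_le_ncard hcov hfin
    _ ≤ _ := Set.ncard_union_le _ _
    _ ≤ (B + 1) ^ 2 + (p ^ 4 + 1) := by
      refine Nat.add_le_add ?_ ?_
      · rw [Set.ncard_coe_finset, Finset.card_product, Finset.card_range]
        exact (sq (B + 1)).ge
      · exact (Set.ncard_union_le _ _).trans (Nat.add_le_add
          ((Set.ncard_image_le f1).trans n1) ((Set.ncard_image_le f2).trans n2))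
    _ = _ := by ring

end Pool.Agent.K1H94.P
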