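import Mathlib
import Pool.Agent.K1H94.P.Classes

/-!
One given base, a second base with a large `p`-part, a large exponent `k` of the third base.
Part 2: the bound for the number of pairs of values, polynomial in `p log a`.
-/

set_option autoImplicit false

namespace Pool.Agent.K1H94.P

/-- `F` is bounded by a power -/
def PB (F : ℕ → ℕ) : Prop := ∃ K : ℕ, ∀ X : ℕ, 2 ≤ X → F X ≤ X ^ K

theorem PB.const (c : ℕ) : PB fun _ => c := by
  refine ⟨c, fun X hX => ?_⟩
  calc c ≤ 2 ^ c := Nat.lt_two_pow_self.le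
    _ ≤ X ^ c := Nat.pow_le_pow_left hX c

theorem PB.id : PB fun X => X := ⟨1, fun X _ => by simp⟩

theorem PB.mul {F G : ℕ → ℕ} (hF : PB F) (hG : PB G) : PB fun X => F X * G X := by
  obtain ⟨K, hK⟩ := hF
  obtain ⟨K', hK'⟩ := hG
  refine ⟨K + K', fun X hX => ?_⟩
  rw [pow_add]
  exact Nat.mul_le_mul (hK X hX) (hK' X hX)

theorem PB.add {F G : ℕ → ℕ} (hF : PB F) (hG : PB G) : PB fun X => F X + G X := by
  obtain ⟨K, hK⟩ := hF
  obtain ⟨K', hK'⟩ := hG
  refine ⟨K + K' + 1, fun X hX => ?_⟩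
  have h1 : X ^ K ≤ X ^ (K + K') := Nat.pow_le_pow_right (by omega) (by omega)
  have h2 : X ^ K' ≤ X ^ (K + K') := Nat.pow_le_pow_right (by omega) (by omega)
  calc F X + G X ≤ X ^ (K + K') + X ^ (K + K') :=
        Nat.add_le_add ((hK X hX).trans h1) ((hK' X hX).trans h2)
    _ = X ^ (K + K') * 2 := by ring
    _ ≤ X ^ (K + K') * X := Nat.mul_le_mul_left _ hX
    _ = X ^ (K + K' + 1) := (pow_succ _ _).symm

theorem PB.pow {F : ℕ → ℕ} (hF : PB F) (n : ℕ) : PB fun X => F X ^ n := by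
  obtain ⟨K, hK⟩ := hF
  refine ⟨K * n, fun X hX => ?_⟩
  rw [pow_mul]
  exact Nat.pow_le_pow_left (hK X hX) n

/-- The pairs of values `(c ^ k, a ^ m)` of the solutions with exponent `k ≥ Z`. -/
def G (κ : ℝ) (Z p a : ℕ) (s σ : ℤ) : Set (ℕ × ℕ) :=
  {w | ∃ c k m b n e : ℕ, w = (c ^ k, a ^ m) ∧ 0 < c ∧ Z ≤ k ∧ 0 < m ∧ 2 ≤ b ∧ 0 < n ∧
    Nat.Coprime c a ∧ Nat.Coprime c b ∧ Nat.Coprime a b ∧ p ^ e ∣ b ∧
    (b : ℝ) ^ κ ≤ (p : ℝ) ^ e ∧
    (c : ℤ) ^ k - s * (a : ℤ) ^ m = σ * (b : ℤ) ^ n}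

theorem G_card {κ : ℝ} (hκ0 : 0 < κ) (hκ1 : κ ≤ 1) : ∃ Z K : ℕ, ∀ (p a : ℕ) (s σ : ℤ),
    p.Prime → 0 < a → (s = 1 ∨ s = -1) → (σ = 1 ∨ σ = -1) →
    (G κ Z p a s σ).Finite ∧ (G κ Z p a s σ).ncard ≤ (p * (Nat.log 2 a + 1)) ^ K := by
  obtain ⟨q₀, hq₀⟩ : ∃ q₀ : ℕ, q₀ = ⌈1600 / κ ^ 2⌉₊ + 4 := ⟨_, rfl⟩
  obtain ⟨L, hL⟩ : ∃ L : ℕ, L = ⌈50 * (3 / (κ / 4) + 1)⌉₊ := ⟨_, rfl⟩
  obtain ⟨h, hh⟩ : ∃ h : ℕ, h = ⌈1 / κ⌉₊ := ⟨_, rfl⟩
  have hq04 : 4 ≤ q₀ := by omega
  have hq0R : 1600 / κ ^ 2 ≤ (q₀ : ℝ) := by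
    rw [hq₀]
    push_cast
    have := Nat.le_ceil (1600 / κ ^ 2)
    linarith
  have hLR : 50 * (3 / (κ / 4) + 1) ≤ (L : ℝ) := by
    rw [hL]
    exact Nat.le_ceil _
  have hhR : 1 / κ ≤ (h : ℝ) := by
    rw [hh]
    exact Nat.le_ceil _
  have hh1 : 1 ≤ h := by
    have h1 : (1 : ℝ) ≤ 1 / κ := by
      rw [le_div_iff₀ hκ0]
      linarith
    exact_mod_cast h1.trans hhR
  -- the bound for `q` and the bound for the number
  let Q : ℕ → ℕ := fun X => q₀ ^ 2 + 2 ^ q₀ + 64 * (10 ^ 9 * X ^ 2 * ((h + 1) * X) ^ 2) ^ 2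
  let F : ℕ → ℕ := fun X => (Q X + 1) * ((Q X + 1) *
    (((10 ^ 8 * (Q X) ^ 9) ^ L + 1) ^ 2 + X ^ 4 + 1))
  have hPQ : PB Q := by
    refine ((PB.const (q₀ ^ 2)).add (PB.const (2 ^ q₀))).add ((PB.const 64).mul ?_)
    refine PB.pow ?_ 2
    exact ((PB.const (10 ^ 9)).mul (PB.id.pow 2)).mul (((PB.const (h + 1)).mul PB.id).pow 2)
  have hPF : PB F := by
    refine (hPQ.add (PB.const 1)).mul ((hPQ.add (PB.const 1)).mul ?_)
    refine PB.add (PB.add (PB.pow (PB.add (PB.pow ?_ L) (PB.const 1)) 2) (PB.id.pow 4)) (PB.const 1)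
    exact (PB.const (10 ^ 8)).mul (hPQ.pow 9)
  obtain ⟨K, hK⟩ := hPF
  refine ⟨q₀ ^ q₀, K, fun p a s σ hp ha hs hσ => ?_⟩
  set X := p * (Nat.log 2 a + 1) with hX
  have hpX : p ≤ X := Nat.le_mul_of_pos_right p (by omega)
  have hX2 : 2 ≤ X := hp.two_le.trans hpX
  have hcov : G κ (q₀ ^ q₀) p a s σ ⊆
      ⋃ q ∈ (Finset.range (Q X + 1)).filter (fun q => IsPrimePow q ∧ q₀ ≤ q),
        ⋃ i ∈ Finset.range q, E κ q i p a s σ := by
    rintro w ⟨c, k, m, b, n, e, hw, hc, hk, hm, hb, hn, hca, hcb, hab, hpe, hbκ, heq⟩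
    obtain ⟨q, U, hq, hq0, hU, hUq, halt⟩ := Pool.Agent.H374R2.W.exists_q (by omega) hk hc
    have hcp : ∀ z : ℕ, Nat.Coprime c z → Nat.Coprime U z := by
      intro z hz
      have h1 : Nat.Coprime (U ^ q) z := by
        rw [hUq]
        exact Nat.Coprime.pow_left _ hz
      exact Nat.Coprime.coprime_dvd_left (dvd_pow_self U hq.pos.ne') h1
    have hbR : (1 : ℝ) < b := by exact_mod_cast (by omega : 1 < b)
    have hlb : 0 < Real.log (b : ℝ) := Real.log_pos hbR
    have hpR : (1 : ℝ) < p := by exact_mod_cast hp.one_lt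
    have hlp : 0 < Real.log (p : ℝ) := Real.log_pos hpR
    have hlogκ : κ * Real.log b ≤ e * Real.log p := by
      have h1 := Real.log_le_log (by positivity) hbκ
      rwa [Real.log_rpow (by positivity), Real.log_pow] at h1
    have he : 0 < e := by
      rcases Nat.eq_zero_or_pos e with h0 | h0
      · exfalso
        rw [h0] at hlogκ
        simp only [Nat.cast_zero, zero_mul] at hlogκ
        have := mul_pos hκ0 hlb
        linarith
      · exact h0
    have hpb : p ∣ b := (dvd_pow_self p he.ne').trans hpe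
    have hpU : ¬ p ∣ U := fun h => hp.not_dvd_one (hcp b hcb ▸ Nat.dvd_gcd h hpb)
    have hpa : ¬ p ∣ a := fun h => hp.not_dvd_one (hab ▸ Nat.dvd_gcd h hpb)
    have hqQ : q ≤ Q X := by
      have hA : q₀ ^ 2 ≤ Q X := by
        change q₀ ^ 2 ≤ q₀ ^ 2 + 2 ^ q₀ + _
        exact (Nat.le_add_right _ _).trans (Nat.le_add_right _ _)
      have hB : 2 ^ q₀ ≤ Q X := by
        change 2 ^ q₀ ≤ q₀ ^ 2 + 2 ^ q₀ + _
        exact (Nat.le_add_left _ _).trans (Nat.le_add_right _ _)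
      by_cases h2 : q ≤ 2 ^ q₀
      · exact h2.trans hB
      · rcases halt with h1 | h1 | ⟨hqp, hU2⟩
        · exact h1.trans hA
        · exact absurd h1 h2
        · have hq3 : 3 ≤ q := by omega
          -- the size of `b`
          have hbp : b ≤ p ^ (h * e) := by
            have h1 : Real.log b ≤ ((h * e : ℕ) : ℝ) * Real.log p := by
              have h3 : Real.log b = 1 / κ * (κ * Real.log b) := by
                field_simp
              rw [h3]
              push_cast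
              rw [mul_assoc]
              exact mul_le_mul hhR hlogκ (by positivity) (by positivity)
            rw [← Real.log_pow, Real.log_le_log_iff (by positivity) (by positivity)] at h1
            exact_mod_cast h1
          set N := max a (p ^ h) with hN
          have hY : 0 < e * n := Nat.mul_pos he hn
          have hT0 : σ * (b : ℤ) ^ n ≠ 0 := by
            have : (b : ℤ) ^ n ≠ 0 := pow_ne_zero _ (by exact_mod_cast (by omega : b ≠ 0))
            rcases hσ with rfl | rfl <;> simpa using this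
          have hTN : (σ * (b : ℤ) ^ n).natAbs < 2 ^ ((Nat.log 2 N + 1) * (e * n)) := by
            have h3 : (σ * (b : ℤ) ^ n).natAbs = b ^ n := by
              rw [Int.natAbs_mul, Int.natAbs_pow, Int.natAbs_natCast]
              rcases hσ with rfl | rfl <;> simp
            rw [h3, pow_mul]
            calc b ^ n ≤ (p ^ (h * e)) ^ n := Nat.pow_le_pow_left hbp n
              _ = (p ^ h) ^ (e * n) := by rw [← pow_mul, ← pow_mul, mul_assoc]
              _ ≤ N ^ (e * n) := Nat.pow_le_pow_left (le_max_right _ _) _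
              _ < (2 ^ (Nat.log 2 N + 1)) ^ (e * n) :=
                Nat.pow_lt_pow_left (Nat.lt_pow_succ_log_self (by norm_num) N) hY.ne'
          -- if `a = 1` replace the exponent by `q`
          obtain ⟨x, hx, hx1, hax⟩ : ∃ x : ℕ, 0 < x ∧ (a = 1 → q ∣ x) ∧ a ^ x = a ^ m := by
            by_cases h1 : a = 1
            · exact ⟨q, hq.pos, fun _ => dvd_rfl, by rw [h1]; simp⟩
            · exact ⟨m, hm, fun h3 => absurd h3 h1, rfl⟩
          have heq2 : (U : ℤ) ^ q - s * (a : ℤ) ^ x = σ * (b : ℤ) ^ n := by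
            rw [← heq]
            have e1 : (U : ℤ) ^ q = (c : ℤ) ^ k := by exact_mod_cast hUq
            have e2 : (a : ℤ) ^ x = (a : ℤ) ^ m := by exact_mod_cast hax
            rw [e1, e2]
          have key := Pool.Agent.TH888.G.q_boundD hs hqp hq3 ha hx1 (le_max_left a (p ^ h))
            (hcp a hca) hx hY hU2 hp le_rfl hT0
            (by
              have h1 : (p : ℤ) ^ (e * n) ∣ (b : ℤ) ^ n := by
                rw [pow_mul]
                exact pow_dvd_pow_of_dvd (by exact_mod_cast hpe) n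
              exact h1.mul_left _) hTN hpU hpa heq2
          rw [← hN] at key
          have hlogN : Nat.log 2 N + 1 ≤ (h + 1) * X := by
            have hlp2 : Nat.log 2 p + 1 ≤ p := by
              have h1 : 2 ^ Nat.log 2 p ≤ p := Nat.pow_log_le_self 2 hp.pos.ne'
              have h2 : Nat.log 2 p < 2 ^ Nat.log 2 p := Nat.lt_two_pow_self
              omega
            have h1 : Nat.log 2 (p ^ h) + 1 ≤ (h + 1) * X := by
              have h3 : p ^ h < 2 ^ ((Nat.log 2 p + 1) * h) := by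
                rw [pow_mul]
                exact Nat.pow_lt_pow_left (Nat.lt_pow_succ_log_self (by norm_num) p) (by omega)
              have h4 : Nat.log 2 (p ^ h) < (Nat.log 2 p + 1) * h :=
                Nat.log_lt_of_lt_pow (pow_pos hp.pos h).ne' h3
              calc Nat.log 2 (p ^ h) + 1 ≤ (Nat.log 2 p + 1) * h := h4
                _ ≤ p * h := Nat.mul_le_mul_right _ hlp2
                _ ≤ X * (h + 1) := Nat.mul_le_mul hpX (by omega)
                _ = (h + 1) * X := by ring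
            have h2 : Nat.log 2 a + 1 ≤ (h + 1) * X := by
              calc Nat.log 2 a + 1 ≤ X := Nat.le_mul_of_pos_left _ hp.pos
                _ ≤ (h + 1) * X := Nat.le_mul_of_pos_left _ (by omega)
            rcases le_total a (p ^ h) with h3 | h3
            · rw [hN, max_eq_right h3]
              exact h1
            · rw [hN, max_eq_left h3]
              exact h2
          have key2 : q ≤ 10 ^ 9 * X ^ 2 * ((h + 1) * X) ^ 2 * (Nat.log 2 q + 1) ^ 2 := by
            refine key.trans ?_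
            calc 10 ^ 9 * p ^ 2 * (Nat.log 2 q + 1) ^ 2 * (Nat.log 2 N + 1) ^ 2
                = 10 ^ 9 * p ^ 2 * (Nat.log 2 N + 1) ^ 2 * (Nat.log 2 q + 1) ^ 2 := by ring
              _ ≤ _ := by
                refine Nat.mul_le_mul_right _ (Nat.mul_le_mul (Nat.mul_le_mul_left _ ?_) ?_)
                · exact Nat.pow_le_pow_left hpX 2
                · exact Nat.pow_le_pow_left hlogN 2
          have key3 := Pool.Agent.TH888.G.q_solve hq.pos key2
          change q ≤ q₀ ^ 2 + 2 ^ q₀ + 64 * (10 ^ 9 * X ^ 2 * ((h + 1) * X) ^ 2) ^ 2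
          exact key3.trans (Nat.le_add_left _ _)
    have hq' : q ∈ (Finset.range (Q X + 1)).filter (fun q => IsPrimePow q ∧ q₀ ≤ q) := by
      rw [Finset.mem_filter, Finset.mem_range]
      exact ⟨by omega, hq, hq0⟩
    rw [Set.mem_iUnion₂]
    refine ⟨q, hq', ?_⟩
    rw [Set.mem_iUnion₂]
    refine ⟨m % q, Finset.mem_range.2 (Nat.mod_lt _ hq.pos), ?_⟩
    have hmq : q * (m / q) + m % q = m := Nat.div_add_mod m q
    refine ⟨U, m / q, b, n, e, ?_, hU, hb, hn, hcp a hca, hcp b hcb, hab, hpe, hbκ, ?_⟩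
    · rw [hw, hUq, hmq]
    · rw [hmq, ← heq]
      have e1 : (U : ℤ) ^ q = (c : ℤ) ^ k := by exact_mod_cast hUq
      rw [e1]
  have hEb : ∀ q ∈ (Finset.range (Q X + 1)).filter (fun q => IsPrimePow q ∧ q₀ ≤ q),
      ∀ i ∈ Finset.range q, (E κ q i p a s σ).Finite ∧ (E κ q i p a s σ).ncard ≤
        ((10 ^ 8 * (Q X) ^ 9) ^ L + 1) ^ 2 + X ^ 4 + 1 := by
    intro q hq i _
    rw [Finset.mem_filter, Finset.mem_range] at hq
    obtain ⟨h1, h2, h3⟩ := hq
    have h4 : 1600 / κ ^ 2 ≤ (q : ℝ) := hq0R.trans (by exact_mod_cast h3)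
    obtain ⟨h5, h6⟩ := E_card (i := i) hκ0 hκ1 h2 h4 hp ha hs hσ hLR
    refine ⟨h5, h6.trans ?_⟩
    have h7 : (10 ^ 8 * q ^ 9) ^ L ≤ (10 ^ 8 * (Q X) ^ 9) ^ L :=
      Nat.pow_le_pow_left (Nat.mul_le_mul_left _ (Nat.pow_le_pow_left (by omega) 9)) L
    have h8 : ((10 ^ 8 * q ^ 9) ^ L + 1) ^ 2 ≤ ((10 ^ 8 * (Q X) ^ 9) ^ L + 1) ^ 2 :=
      Nat.pow_le_pow_left (by omega) 2
    have h9 : p ^ 4 ≤ X ^ 4 := Nat.pow_le_pow_left hpX 4
    omega
  have hfin : (⋃ q ∈ (Finset.range (Q X + 1)).filter (fun q => IsPrimePow q ∧ q₀ ≤ q),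
        ⋃ i ∈ Finset.range q, E κ q i p a s σ).Finite :=
    Set.Finite.biUnion (Finset.finite_toSet _) fun q hq =>
      Set.Finite.biUnion (Finset.finite_toSet _) fun i hi => (hEb q hq i hi).1
  refine ⟨hfin.subset hcov, ?_⟩
  calc (G κ (q₀ ^ q₀) p a s σ).ncard ≤ _ := Set.ncard_le_ncard hcov hfin
    _ ≤ ∑ q ∈ (Finset.range (Q X + 1)).filter (fun q => IsPrimePow q ∧ q₀ ≤ q),
        (⋃ i ∈ Finset.range q, E κ q i p a s σ).ncard := Finset.set_ncard_biUnion_le _ _
    _ ≤ ∑ _q ∈ (Finset.range (Q X + 1)).filter (fun q => IsPrimePow q ∧ q₀ ≤ q),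
        ((Q X + 1) * (((10 ^ 8 * (Q X) ^ 9) ^ L + 1) ^ 2 + X ^ 4 + 1)) := by
      refine Finset.sum_le_sum fun q hq => ?_
      calc (⋃ i ∈ Finset.range q, E κ q i p a s σ).ncard
          ≤ ∑ i ∈ Finset.range q, (E κ q i p a s σ).ncard := Finset.set_ncard_biUnion_le _ _
        _ ≤ ∑ _i ∈ Finset.range q, (((10 ^ 8 * (Q X) ^ 9) ^ L + 1) ^ 2 + X ^ 4 + 1) :=
          Finset.sum_le_sum fun i hi => (hEb q hq i hi).2
        _ = q * (((10 ^ 8 * (Q X) ^ 9) ^ L + 1) ^ 2 + X ^ 4 + 1) := by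
          rw [Finset.sum_const, Finset.card_range, smul_eq_mul]
        _ ≤ _ := by
          refine Nat.mul_le_mul_right _ ?_
          rw [Finset.mem_filter, Finset.mem_range] at hq
          omega
    _ = ((Finset.range (Q X + 1)).filter (fun q => IsPrimePow q ∧ q₀ ≤ q)).card *
        ((Q X + 1) * (((10 ^ 8 * (Q X) ^ 9) ^ L + 1) ^ 2 + X ^ 4 + 1)) := by
      rw [Finset.sum_const, smul_eq_mul]
    _ ≤ F X := by
      refine Nat.mul_le_mul_right _ ?_
      calc ((Finset.range (Q X + 1)).filter (fun q => IsPrimePow q ∧ q₀ ≤ q)).card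
          ≤ (Finset.range (Q X + 1)).card := Finset.card_filter_le _ _
        _ = Q X + 1 := Finset.card_range _
    _ ≤ X ^ K := hK X hX2

end Pool.Agent.K1H94.P
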