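import Mathlib

/-!
The orders of three elements with a given multiset of values.
-/

set_option autoImplicit false

namespace Pool.Agent.K1H94.P

theorem perm2 {x y A B : ℕ} (h : ({x, y} : Multiset ℕ) = {A, B}) :
    (x = A ∧ y = B) ∨ (x = B ∧ y = A) := by
  simp only [Multiset.insert_eq_cons, Multiset.cons_eq_cons, Multiset.singleton_inj] at h
  rcases h with ⟨h1, h2⟩ | ⟨h1, cs, h2, h3⟩
  · exact Or.inl ⟨h1, h2⟩
  · right
    have hc : Multiset.card cs = 0 := by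
      have := congrArg Multiset.card h2
      simp only [Multiset.card_singleton, Multiset.card_cons] at this
      omega
    rw [Multiset.card_eq_zero] at hc
    subst hc
    simp only [Multiset.cons_zero, Multiset.singleton_inj] at h2 h3
    exact ⟨h3.symm, h2⟩

theorem perm3 {x y z A B C : ℕ} (h : ({x, y, z} : Multiset ℕ) = {A, B, C}) :
    (x = A ∧ y = B ∧ z = C) ∨ (x = A ∧ y = C ∧ z = B) ∨ (x = B ∧ y = A ∧ z = C) ∨
    (x = B ∧ y = C ∧ z = A) ∨ (x = C ∧ y = A ∧ z = B) ∨ (x = C ∧ y = B ∧ z = A) := by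
  have hx : x ∈ ({A, B, C} : Multiset ℕ) := by rw [← h]; simp
  simp only [Multiset.insert_eq_cons, Multiset.mem_cons, Multiset.mem_singleton] at hx
  rcases hx with rfl | rfl | rfl
  · have h1 : ({y, z} : Multiset ℕ) = {B, C} := (Multiset.cons_inj_right x).1 h
    rcases perm2 h1 with ⟨h2, h3⟩ | ⟨h2, h3⟩
    · exact Or.inl ⟨rfl, h2, h3⟩
    · exact Or.inr (Or.inl ⟨rfl, h2, h3⟩)
  · have h0 : ({A, x, C} : Multiset ℕ) = {x, A, C} := Multiset.cons_swap _ _ _
    have h1 : ({y, z} : Multiset ℕ) = {A, C} := (Multiset.cons_inj_right x).1 (h.trans h0)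
    rcases perm2 h1 with ⟨h2, h3⟩ | ⟨h2, h3⟩
    · exact Or.inr (Or.inr (Or.inl ⟨rfl, h2, h3⟩))
    · exact Or.inr (Or.inr (Or.inr (Or.inl ⟨rfl, h2, h3⟩)))
  · have h0 : ({A, B, x} : Multiset ℕ) = {x, A, B} := by
      have e1 : ({A, B, x} : Multiset ℕ) = {A, x, B} :=
        congrArg (Multiset.cons A) (Multiset.cons_swap B x 0)
      exact e1.trans (Multiset.cons_swap _ _ _)
    have h1 : ({y, z} : Multiset ℕ) = {A, B} := (Multiset.cons_inj_right x).1 (h.trans h0)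
    rcases perm2 h1 with ⟨h2, h3⟩ | ⟨h2, h3⟩
    · exact Or.inr (Or.inr (Or.inr (Or.inr (Or.inl ⟨rfl, h2, h3⟩))))
    · exact Or.inr (Or.inr (Or.inr (Or.inr (Or.inr ⟨rfl, h2, h3⟩))))

end Pool.Agent.K1H94.P
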