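import Mathlib
import Pool.Agent.K1H94.P.Count
import Pool.Agent.K1H94.P.Perm

/-!
One given base, a second base with a large `S`-part, a large exponent `k` of the third base.
Part 3: the value triples.
-/

set_option autoImplicit false

namespace Pool.Agent.K1H94.P

/-- The largest divisor of `b` all of whose prime factors are in `S`. -/
def sPart (S : Finset ℕ) (b : ℕ) : ℕ := ∏ p ∈ S, p ^ b.factorization p

/-- Value triples of solutions with a base `a`, a base `b` with a large `S`-part, and an exponent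
`k ≥ Z` of the third base. -/
def Triples (κ : ℝ) (Z a : ℕ) (S : Finset ℕ) : Set (ℕ × ℕ × ℕ) :=
  {v | v.1 + v.2.1 = v.2.2 ∧ ∃ b c m n k : ℕ, 2 ≤ b ∧ 1 ≤ c ∧ 1 ≤ m ∧ 1 ≤ n ∧ Z ≤ k ∧
    Nat.Coprime a b ∧ Nat.Coprime a c ∧ Nat.Coprime b c ∧ (b : ℝ) ^ κ ≤ (sPart S b : ℝ) ∧
    ({v.1, v.2.1, v.2.2} : Multiset ℕ) = {a ^ m, b ^ n, c ^ k}}

/-- one prime of `S` has a large part -/
theorem one_prime {κ : ℝ} (hκ0 : 0 < κ) {s b : ℕ} {S : Finset ℕ} (hS : S.card ≤ s) (hb : 2 ≤ b)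
    (hp : ∀ p ∈ S, p.Prime) (h : (b : ℝ) ^ κ ≤ (sPart S b : ℝ)) :
    ∃ p ∈ S, (b : ℝ) ^ (κ / s) ≤ (p : ℝ) ^ b.factorization p := by
  have hbR : (1 : ℝ) < b := by exact_mod_cast (by omega : 1 < b)
  by_contra hcon
  push Not at hcon
  have hne : S.Nonempty := by
    rw [Finset.nonempty_iff_ne_empty]
    rintro rfl
    rw [sPart, Finset.prod_empty, Nat.cast_one] at h
    have : 1 < (b : ℝ) ^ κ := Real.one_lt_rpow hbR hκ0
    linarith
  have hs0 : 0 < s := lt_of_lt_of_le (Finset.card_pos.2 hne) hS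
  have h1 : (sPart S b : ℝ) < ∏ _p ∈ S, (b : ℝ) ^ (κ / s) := by
    rw [sPart, Nat.cast_prod]
    refine Finset.prod_lt_prod_of_nonempty (fun p hpS => ?_) (fun p hpS => ?_) hne
    · have := (hp p hpS).pos
      positivity
    · rw [Nat.cast_pow]
      exact hcon p hpS
  rw [Finset.prod_const, ← Real.rpow_natCast, ← Real.rpow_mul (by positivity)] at h1
  have h2 : (b : ℝ) ^ (κ / s * S.card) ≤ (b : ℝ) ^ κ := by
    apply Real.rpow_le_rpow_of_exponent_le hbR.le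
    have h3 : (S.card : ℝ) ≤ s := by exact_mod_cast hS
    have h4 : (0 : ℝ) < s := by exact_mod_cast hs0
    calc κ / s * S.card ≤ κ / s * s := by
          exact mul_le_mul_of_nonneg_left h3 (by positivity)
      _ = κ := by field_simp
  linarith

/-- the six orders of the three terms -/
def maps : Fin 6 → ℕ × ℕ → ℕ × ℕ × ℕ
  | 0, w => (w.2, w.1 - w.2, w.1)
  | 1, w => (w.1 - w.2, w.2, w.1)
  | 2, w => (w.2 - w.1, w.1, w.2)
  | 3, w => (w.1, w.2 - w.1, w.2)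
  | 4, w => (w.2, w.1, w.2 + w.1)
  | 5, w => (w.1, w.2, w.1 + w.2)

/-- the sign of the given base -/
def sg : Fin 6 → ℤ
  | 4 => -1
  | 5 => -1
  | _ => 1

/-- the sign of the second base -/
def sg' : Fin 6 → ℤ
  | 2 => -1
  | 3 => -1
  | _ => 1

theorem sg_or (j : Fin 6) : sg j = 1 ∨ sg j = -1 := by
  fin_cases j <;> simp [sg]

theorem sg'_or (j : Fin 6) : sg' j = 1 ∨ sg' j = -1 := by
  fin_cases j <;> simp [sg']

theorem cover {κ κ' : ℝ} (hκ0 : 0 < κ) {s Z a : ℕ} {S : Finset ℕ} (hS : S.card ≤ s)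
    (hp : ∀ p ∈ S, p.Prime) (hκ' : κ' ≤ κ / s) :
    Triples κ Z a S ⊆ ⋃ p ∈ S, ⋃ j ∈ (Finset.univ : Finset (Fin 6)),
      maps j '' G κ' Z p a (sg j) (sg' j) := by
  rintro ⟨x, y, z⟩ ⟨hsum, b, c, m, n, k, hb, hc, hm, hn, hk, hab, hac, hbc, hpart, hmul⟩
  simp only at hsum hmul
  obtain ⟨p, hpS, hpb⟩ := one_prime hκ0 hS hb hp hpart
  have hbR : (1 : ℝ) ≤ b := by exact_mod_cast (by omega : 1 ≤ b)
  have hpb' : (b : ℝ) ^ κ' ≤ (p : ℝ) ^ b.factorization p :=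
    (Real.rpow_le_rpow_of_exponent_le hbR hκ').trans hpb
  have hdvd : p ^ b.factorization p ∣ b := Nat.ordProj_dvd b p
  rw [Set.mem_iUnion₂]
  refine ⟨p, hpS, ?_⟩
  rw [Set.mem_iUnion₂]
  have hG : ∀ j : Fin 6, (c : ℤ) ^ k - sg j * (a : ℤ) ^ m = sg' j * (b : ℤ) ^ n →
      (c ^ k, a ^ m) ∈ G κ' Z p a (sg j) (sg' j) := fun j hj =>
    ⟨c, k, m, b, n, _, rfl, hc, hk, hm, hb, hn, hac.symm, hbc.symm, hab, hdvd, hpb', hj⟩
  rcases perm3 hmul with ⟨h1, h2, h3⟩ | ⟨h1, h2, h3⟩ | ⟨h1, h2, h3⟩ | ⟨h1, h2, h3⟩ |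
      ⟨h1, h2, h3⟩ | ⟨h1, h2, h3⟩
  · -- `a ^ m + b ^ n = c ^ k`
    have h4 : a ^ m + b ^ n = c ^ k := by rw [← h1, ← h2, ← h3]; exact hsum
    have h5 : (a : ℤ) ^ m + (b : ℤ) ^ n = (c : ℤ) ^ k := by exact_mod_cast h4
    refine ⟨0, Finset.mem_univ _, (c ^ k, a ^ m), hG 0 ?_, ?_⟩
    · simp only [sg, sg']
      linarith
    · simp only [maps, Prod.mk.injEq]
      omega
  · -- `a ^ m + c ^ k = b ^ n`
    have h4 : a ^ m + c ^ k = b ^ n := by rw [← h1, ← h2, ← h3]; exact hsum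
    have h5 : (a : ℤ) ^ m + (c : ℤ) ^ k = (b : ℤ) ^ n := by exact_mod_cast h4
    refine ⟨4, Finset.mem_univ _, (c ^ k, a ^ m), hG 4 ?_, ?_⟩
    · simp only [sg, sg']
      linarith
    · simp only [maps, Prod.mk.injEq]
      omega
  · -- `b ^ n + a ^ m = c ^ k`
    have h4 : b ^ n + a ^ m = c ^ k := by rw [← h1, ← h2, ← h3]; exact hsum
    have h5 : (b : ℤ) ^ n + (a : ℤ) ^ m = (c : ℤ) ^ k := by exact_mod_cast h4
    refine ⟨1, Finset.mem_univ _, (c ^ k, a ^ m), hG 1 ?_, ?_⟩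
    · simp only [sg, sg']
      linarith
    · simp only [maps, Prod.mk.injEq]
      omega
  · -- `b ^ n + c ^ k = a ^ m`
    have h4 : b ^ n + c ^ k = a ^ m := by rw [← h1, ← h2, ← h3]; exact hsum
    have h5 : (b : ℤ) ^ n + (c : ℤ) ^ k = (a : ℤ) ^ m := by exact_mod_cast h4
    refine ⟨2, Finset.mem_univ _, (c ^ k, a ^ m), hG 2 ?_, ?_⟩
    · simp only [sg, sg']
      linarith
    · simp only [maps, Prod.mk.injEq]
      omega
  · -- `c ^ k + a ^ m = b ^ n`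
    have h4 : c ^ k + a ^ m = b ^ n := by rw [← h1, ← h2, ← h3]; exact hsum
    have h5 : (c : ℤ) ^ k + (a : ℤ) ^ m = (b : ℤ) ^ n := by exact_mod_cast h4
    refine ⟨5, Finset.mem_univ _, (c ^ k, a ^ m), hG 5 ?_, ?_⟩
    · simp only [sg, sg']
      linarith
    · simp only [maps, Prod.mk.injEq]
      omega
  · -- `c ^ k + b ^ n = a ^ m`
    have h4 : c ^ k + b ^ n = a ^ m := by rw [← h1, ← h2, ← h3]; exact hsum
    have h5 : (c : ℤ) ^ k + (b : ℤ) ^ n = (a : ℤ) ^ m := by exact_mod_cast h4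
    refine ⟨3, Finset.mem_univ _, (c ^ k, a ^ m), hG 3 ?_, ?_⟩
    · simp only [sg, sg']
      linarith
    · simp only [maps, Prod.mk.injEq]
      omega

theorem log_nat (a : ℕ) (ha : 1 ≤ a) : ((Nat.log 2 a + 1 : ℕ) : ℝ) ≤ 3 * Real.log (a + 1) := by
  have h2 : (0.6931471803 : ℝ) < Real.log 2 := Real.log_two_gt_d9
  have haR : (1 : ℝ) ≤ a := by exact_mod_cast ha
  have h3 : ((Nat.log 2 a : ℕ) : ℝ) * Real.log 2 ≤ Real.log (a + 1) := by
    rw [← Real.log_pow]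
    apply Real.log_le_log (by positivity)
    have : 2 ^ Nat.log 2 a ≤ a := Nat.pow_log_le_self 2 (by omega)
    have h4 : ((2 : ℝ)) ^ Nat.log 2 a ≤ a := by exact_mod_cast this
    linarith
  have h4 : Real.log 2 ≤ Real.log (a + 1) := Real.log_le_log (by norm_num) (by linarith)
  push_cast
  have h5 : (0 : ℝ) ≤ (Nat.log 2 a : ℕ) := Nat.cast_nonneg _
  nlinarith

/-- **One given base, one base with a large `S`-part.** -/
theorem main (κ : ℝ) (hκ : 0 < κ) (s : ℕ) : ∃ Z K : ℕ, ∀ (a R : ℕ) (S : Finset ℕ), 1 ≤ a →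
    (∀ p ∈ S, p.Prime ∧ p ≤ R) → S.card ≤ s →
    (Triples κ Z a S).Finite ∧
      ((Triples κ Z a S).ncard : ℝ) ≤ ((R : ℝ) * Real.log (a + 1)) ^ K := by
  obtain ⟨κ₁, h1, h2, h3⟩ : ∃ κ₁ : ℝ, 0 < κ₁ ∧ κ₁ ≤ 1 ∧ (s ≠ 0 → κ₁ ≤ κ / s) := by
    by_cases hs : s = 0
    · exact ⟨1, one_pos, le_rfl, fun h => absurd hs h⟩
    · have hs' : (0 : ℝ) < s := by exact_mod_cast Nat.pos_of_ne_zero hs
      exact ⟨min (κ / s) 1, lt_min (by positivity) one_pos, min_le_right _ _,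
        fun _ => min_le_left _ _⟩
  obtain ⟨Z, K, hK⟩ := G_card h1 h2
  have hlog2 : (0.6931471803 : ℝ) < Real.log 2 := Real.log_two_gt_d9
  obtain ⟨t, ht⟩ := pow_unbounded_of_one_lt ((6 * s * 3 ^ K : ℕ) : ℝ)
    (show (1 : ℝ) < 2 * Real.log 2 by linarith)
  refine ⟨Z, K + t, fun a R S ha hp hS => ?_⟩
  by_cases hne : S.Nonempty
  · obtain ⟨p₀, hp₀⟩ := hne
    have hs0 : s ≠ 0 := by
      have := Finset.card_pos.2 ⟨p₀, hp₀⟩
      omega
    have hR : 2 ≤ R := (hp p₀ hp₀).1.two_le.trans (hp p₀ hp₀).2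
    have hcov := cover (Z := Z) (a := a) hκ hS (fun p h => (hp p h).1) (h3 hs0)
    have hfin : (⋃ p ∈ S, ⋃ j ∈ (Finset.univ : Finset (Fin 6)),
        maps j '' G κ₁ Z p a (sg j) (sg' j)).Finite :=
      Set.Finite.biUnion (Finset.finite_toSet _) fun p hpS =>
        Set.Finite.biUnion (Finset.finite_toSet _) fun j _ =>
          (hK p a _ _ (hp p hpS).1 ha (sg_or j) (sg'_or j)).1.image _
    refine ⟨hfin.subset hcov, ?_⟩
    have hnat : (Triples κ Z a S).ncard ≤ s * (6 * (R * (Nat.log 2 a + 1)) ^ K) := by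
      calc (Triples κ Z a S).ncard ≤ _ := Set.ncard_le_ncard hcov hfin
        _ ≤ ∑ p ∈ S, (⋃ j ∈ (Finset.univ : Finset (Fin 6)),
            maps j '' G κ₁ Z p a (sg j) (sg' j)).ncard := Finset.set_ncard_biUnion_le _ _
        _ ≤ ∑ _p ∈ S, 6 * (R * (Nat.log 2 a + 1)) ^ K := by
          refine Finset.sum_le_sum fun p hpS => ?_
          calc (⋃ j ∈ (Finset.univ : Finset (Fin 6)),
              maps j '' G κ₁ Z p a (sg j) (sg' j)).ncard
              ≤ ∑ j ∈ (Finset.univ : Finset (Fin 6)),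
                (maps j '' G κ₁ Z p a (sg j) (sg' j)).ncard := Finset.set_ncard_biUnion_le _ _
            _ ≤ ∑ _j ∈ (Finset.univ : Finset (Fin 6)), (R * (Nat.log 2 a + 1)) ^ K := by
              refine Finset.sum_le_sum fun j _ => ?_
              obtain ⟨f1, f2⟩ := hK p a _ _ (hp p hpS).1 ha (sg_or j) (sg'_or j)
              refine (Set.ncard_image_le f1).trans (f2.trans ?_)
              exact Nat.pow_le_pow_left (Nat.mul_le_mul_right _ (hp p hpS).2) K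
            _ = 6 * (R * (Nat.log 2 a + 1)) ^ K := by
              rw [Finset.sum_const, Finset.card_univ, Fintype.card_fin, smul_eq_mul]
        _ = S.card * (6 * (R * (Nat.log 2 a + 1)) ^ K) := by
          rw [Finset.sum_const, smul_eq_mul]
        _ ≤ _ := Nat.mul_le_mul_right _ hS
    set Y : ℝ := (R : ℝ) * Real.log (a + 1) with hY
    have haR : (1 : ℝ) ≤ a := by exact_mod_cast ha
    have hl : Real.log 2 ≤ Real.log (a + 1) := Real.log_le_log (by norm_num) (by linarith)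
    have hRR : (2 : ℝ) ≤ R := by exact_mod_cast hR
    have hY1 : 2 * Real.log 2 ≤ Y := by
      rw [hY]
      nlinarith
    have hX : ((R * (Nat.log 2 a + 1) : ℕ) : ℝ) ≤ 3 * Y := by
      have h5 := mul_le_mul_of_nonneg_left (log_nat a ha) (show (0 : ℝ) ≤ R by linarith)
      rw [Nat.cast_mul]
      rw [hY]
      linarith
    have h6 : ((Triples κ Z a S).ncard : ℝ) ≤
        ((s * (6 * (R * (Nat.log 2 a + 1)) ^ K) : ℕ) : ℝ) := by exact_mod_cast hnat
    calc ((Triples κ Z a S).ncard : ℝ) ≤ _ := h6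
      _ = (6 * s : ℝ) * ((R * (Nat.log 2 a + 1) : ℕ) : ℝ) ^ K := by
        rw [Nat.cast_mul, Nat.cast_mul, Nat.cast_pow]
        push_cast
        ring
      _ ≤ (6 * s : ℝ) * (3 * Y) ^ K := by
        refine mul_le_mul_of_nonneg_left ?_ (by positivity)
        exact pow_le_pow_left₀ (Nat.cast_nonneg _) hX K
      _ = ((6 * s * 3 ^ K : ℕ) : ℝ) * Y ^ K := by
        push_cast
        rw [mul_pow]
        ring
      _ ≤ Y ^ t * Y ^ K := by
        refine mul_le_mul_of_nonneg_right (ht.le.trans ?_) (pow_nonneg (by linarith) K)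
        exact pow_le_pow_left₀ (by linarith) hY1 t
      _ = Y ^ (K + t) := by
        rw [← pow_add, add_comm]
  · have hemp : Triples κ Z a S = ∅ := by
      rw [Set.eq_empty_iff_forall_notMem]
      rintro v ⟨-, b, c, m, n, k, hb, -, -, -, -, -, -, -, hpart, -⟩
      obtain ⟨p, hpS, -⟩ := one_prime (s := s) hκ hS hb (fun p h => (hp p h).1) hpart
      exact hne ⟨p, hpS⟩
    rw [hemp]
    refine ⟨Set.finite_empty, ?_⟩
    rw [Set.ncard_empty, Nat.cast_zero]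
    have haR : (1 : ℝ) ≤ a := by exact_mod_cast ha
    have hl : 0 ≤ Real.log ((a : ℝ) + 1) := Real.log_nonneg (by linarith)
    positivity

end Pool.Agent.K1H94.P
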